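import Mathlib

set_option autoImplicit false

namespace Pool.Agent.Results.MP_b39683_an.Regular

open Finset Complex
open scoped symmDiff ComplexOrder Pointwise InnerProductSpace

/-- The space `ℓ²(G)`. -/
def L (G : Type) : Type := lp (fun _ : G => ℂ) 2

noncomputable instance (G : Type) : NormedAddCommGroup (L G) :=
  lp.normedAddCommGroup (E := fun _ : G => ℂ) (p := 2)

noncomputable instance (G : Type) : NormedSpace ℂ (L G) :=
  lp.instNormedSpace (E := fun _ : G => ℂ) (p := 2)

/-- The values of an element of `ℓ²(G)`. -/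
def L.val {G : Type} (f : L G) : G → ℂ := Subtype.val f

/-- Positive operators map nonnegative functions to nonnegative functions. -/
def Positive {G : Type} (P : L G →L[ℂ] L G) : Prop :=
  ∀ f : L G, (∀ x, 0 ≤ f.val x) → ∀ x, 0 ≤ (P f).val x

/-- Regular operators are the complex linear combinations of positive operators. -/
def IsReg {G : Type} (T : L G →L[ℂ] L G) : Prop := T ∈ Submodule.span ℂ {P | Positive P}

/-- `T` commutes with all right translations. -/
def Invariant {G : Type} [Group G] (T : L G →L[ℂ] L G) : Prop :=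
  ∀ (s : G) (f g : L G), (∀ x, g.val x = f.val (x * s)) → ∀ x, (T g).val x = (T f).val (x * s)

/-- Amenability of a discrete group: an invariant finitely additive probability on all subsets. -/
def Amenable (G : Type) [Group G] : Prop :=
  ∃ m : Set G → ℝ, (∀ A, 0 ≤ m A) ∧ m Set.univ = 1 ∧
    (∀ A B, Disjoint A B → m (A ∪ B) = m A + m B) ∧ ∀ (g : G) A, m (g • A) = m A

section general
variable {G : Type}

/-- Composition with a permutation. -/
noncomputable def shift (σ : G ≃ G) : lp (fun _ : G => ℂ) 2 →ₗᵢ[ℂ] lp (fun _ : G => ℂ) 2 where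
  toFun f := ⟨fun x => f (σ x), by
    have h : 0 < (2 : ENNReal).toReal := by norm_num
    exact (memℓp_gen_iff h).2 (σ.summable_iff.2 ((memℓp_gen_iff h).1 f.2))⟩
  map_add' _ _ := rfl
  map_smul' _ _ := rfl
  norm_map' f := by
    have h : 0 < (2 : ENNReal).toReal := by norm_num
    rw [lp.norm_eq_tsum_rpow h, lp.norm_eq_tsum_rpow h]
    exact congrArg (· ^ (1 / (2 : ENNReal).toReal))
      (σ.tsum_eq fun x => ‖f x‖ ^ (2 : ENNReal).toReal)

/-- The operator `(3/5)(1 + i σ)`. -/
noncomputable def W (σ : G ≃ G) : lp (fun _ : G => ℂ) 2 →L[ℂ] lp (fun _ : G => ℂ) 2 :=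
  (3 / 5 : ℂ) • (1 + I • (shift σ).toContinuousLinearMap)

theorem norm_W (σ : G ≃ G) (h : ∀ x, σ (σ x) = x) : ‖W σ‖ ≤ 9 / 10 := by
  refine ContinuousLinearMap.opNorm_le_bound _ (by norm_num) fun f => ?_
  have h1 := parallelogram_law_with_norm_mul ℂ f (I • shift σ f)
  have h2 : shift σ (f + I • shift σ f) = I • (f - I • shift σ f) := by
    have : shift σ (shift σ f) = f := lp.ext (funext fun x => congrArg f (h x))
    rw [map_add, map_smul, this, smul_sub, smul_smul, I_mul_I]
    module
  have h3 := congrArg norm h2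
  rw [LinearIsometry.norm_map, norm_smul, norm_I, one_mul] at h3
  rw [← h3, norm_smul, norm_I, one_mul, LinearIsometry.norm_map] at h1
  change ‖(3 / 5 : ℂ) • (f + I • shift σ f)‖ ≤ _
  rw [norm_smul, show ‖(3 / 5 : ℂ)‖ = 3 / 5 by simp]
  exact (sq_le_sq₀ (by positivity) (by positivity)).1 (by nlinarith [sq_nonneg ‖f‖])

theorem dom [DecidableEq G] (T : L G →L[ℂ] L G) (hT : IsReg T) :
    ∃ C : ℝ, ∀ F : Finset G, ∑ x ∈ F, ∑ y ∈ F, ‖(T (lp.single 2 y 1)).val x‖ ≤ C * F.card := by
  induction hT using Submodule.span_induction with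
  | zero =>
    exact ⟨0, fun F => ((sum_eq_zero fun x _ => sum_eq_zero fun y _ => norm_zero).trans
      (zero_mul _).symm).le⟩
  | add S T _ _ hS hT =>
    obtain ⟨C, hC⟩ := hS
    obtain ⟨D, hD⟩ := hT
    refine ⟨C + D, fun F => ?_⟩
    rw [add_mul]
    refine le_trans ?_ (add_le_add (hC F) (hD F))
    simp only [← sum_add_distrib]
    exact sum_le_sum fun x _ => sum_le_sum fun y _ => norm_add_le _ _
  | smul a T _ hT =>
    obtain ⟨C, hC⟩ := hT
    refine ⟨‖a‖ * C, fun F => ?_⟩
    rw [mul_assoc]
    refine le_trans ?_ (mul_le_mul_of_nonneg_left (hC F) (norm_nonneg a))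
    simp only [mul_sum]
    exact sum_le_sum fun x _ => sum_le_sum fun y _ => (norm_mul a _).le
  | mem P hP =>
    revert P
    change ∀ P : lp (fun _ : G => ℂ) 2 →L[ℂ] lp (fun _ : G => ℂ) 2,
      (∀ f : lp (fun _ : G => ℂ) 2, (∀ x, 0 ≤ f x) → ∀ x, 0 ≤ P f x) →
      ∃ C : ℝ, ∀ F : Finset G, ∑ x ∈ F, ∑ y ∈ F, ‖P (lp.single 2 y 1) x‖ ≤ C * F.card
    refine fun P hP => ⟨‖P‖, fun F => ?_⟩
    set u : lp (fun _ : G => ℂ) 2 := ∑ y ∈ F, lp.single 2 y 1 with hu
    have h1 : ∀ g : lp (fun _ : G => ℂ) 2, ⟪u, g⟫_ℂ = ∑ x ∈ F, g x := fun g => by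
      simp [hu, sum_inner, lp.inner_single_left]
    have h2 : ‖u‖ ^ 2 = F.card := by
      rw [← inner_self_eq_norm_sq (𝕜 := ℂ), h1, sum_congr rfl (g := fun _ => 1) fun x hx => by
        rw [hu, lp.coeFn_sum, Finset.sum_apply]
        simp [lp.single_apply, Pi.single_apply, hx]]
      simp
    have h3 : ((∑ x ∈ F, ∑ y ∈ F, ‖P (lp.single 2 y 1) x‖ : ℝ) : ℂ) = ⟪u, P u⟫_ℂ := by
      rw [h1, hu, map_sum, lp.coeFn_sum]
      push_cast
      refine sum_congr rfl fun x _ => ?_
      rw [Finset.sum_apply]
      refine sum_congr rfl fun y _ => (Complex.norm_of_nonneg' (hP _ (fun z => ?_) x))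
      rw [lp.single_apply, Pi.single_apply]
      split_ifs <;> simp
    refine (le_abs_self _).trans ?_
    rw [← Real.norm_eq_abs, ← norm_real, h3, ← h2]
    refine (norm_inner_le_norm _ _).trans ?_
    nlinarith [P.le_opNorm u, norm_nonneg u]

end general

/-- Finite subsets of `ℕ` under symmetric difference. -/
def H : Type := Finset ℕ

instance : Group H where
  mul a b := symmDiff (α := Finset ℕ) a b
  one := (∅ : Finset ℕ)
  inv a := a
  mul_assoc := symmDiff_assoc (α := Finset ℕ)
  one_mul := bot_symmDiff (α := Finset ℕ)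
  mul_one := symmDiff_bot (α := Finset ℕ)
  inv_mul_cancel := symmDiff_self (α := Finset ℕ)

/-- The group. -/
abbrev G := FreeGroup Bool × H

theorem not_amenable : ¬ Amenable G := by
  rintro ⟨m, h0, h1, h2, h3⟩
  have mono : ∀ A B, A ⊆ B → m A ≤ m B := fun A B h => by
    rw [← Set.union_sdiff_cancel h, h2 _ _ Set.disjoint_sdiff_right]
    linarith [h0 (B \ A)]
  let V : Bool × Bool → Set G := fun w => {g | g.1 ∈ FreeGroup.startsWith w}
  have dis : ∀ v w, v ≠ w → Disjoint (V v) (V w) := fun v w h =>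
    (FreeGroup.startsWith.disjoint_iff_ne.2 h).preimage Prod.fst
  have key : ∀ a, 1 ≤ m (V (a, true) ∪ V (a, false)) := fun a => by
    rw [h2 _ _ (dis _ _ (by simp)), ← h1, ← Set.union_compl_self (V (a, true)),
      h2 _ _ disjoint_compl_right, ← h3 (FreeGroup.mk [(a, false)], 1) (V (a, true))ᶜ]
    refine add_le_add_right (mono _ _ ?_) _
    rintro _ ⟨g, hg, rfl⟩
    exact FreeGroup.startsWith_mk_mul (w := (a, false)) g.1 hg
  have := mono _ _ (Set.subset_univ ((V (true, true) ∪ V (true, false)) ∪
    (V (false, true) ∪ V (false, false))))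
  rw [h2 _ _ (by simp [dis])] at this
  linarith [key true, key false]

/-- The embedding of `H`. -/
def e (z : Finset ℕ) : G := (1, z)

/-- The partial products. -/
noncomputable def A : ℕ → lp (fun _ : G => ℂ) 2 →L[ℂ] lp (fun _ : G => ℂ) 2
  | 0 => 1
  | m + 1 => W (Equiv.mulLeft (e {m})) * A m

theorem e_mul (a b : Finset ℕ) : e a * e b = e (a ∆ b) := Prod.ext (mul_one _) rfl

theorem norm_A (m : ℕ) : ‖A m‖ ≤ (9 / 10) ^ m := by
  induction m with
  | zero => exact ContinuousLinearMap.norm_id_le
  | succ m ih =>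
    rw [pow_succ']
    refine (norm_mul_le _ _).trans (mul_le_mul (norm_W _ fun x => ?_) ih (norm_nonneg _)
      (by norm_num))
    simp only [Equiv.coe_mulLeft, ← mul_assoc, e_mul, symmDiff_self]
    exact one_mul x

theorem comm_A (s : G) (m : ℕ) :
    Commute (A m) (shift (Equiv.mulRight s)).toContinuousLinearMap := by
  induction m with
  | zero => exact Commute.one_left _
  | succ m ih =>
    refine Commute.mul_left (((Commute.one_left _).add_left (Commute.smul_left ?_ _)).smul_left _) ih
    ext f x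
    exact congrArg f (mul_assoc _ _ _)

open Classical in
theorem ker_A (m : ℕ) (z' : Finset ℕ) : ∀ z, A m (lp.single 2 (e z') 1) (e z) =
    (if z ∆ z' ⊆ range m then (3 / 5) ^ m else 0 : ℝ) * I ^ (z ∆ z').card := by
  induction m with
  | zero =>
    intro z
    change (lp.single 2 (e z') 1 : lp (fun _ : G => ℂ) 2) (e z) = _
    rw [lp.single_apply, Pi.single_apply]
    by_cases h : z = z'
    · simp [h]
    · rw [if_neg fun h' => h (congrArg Prod.snd h'), if_neg]
      · simp
      · simpa [← Finset.bot_eq_empty] using h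
  | succ m ih =>
    intro z
    change (3 / 5 : ℂ) * (A m (lp.single 2 (e z') 1) (e z) +
      I * A m (lp.single 2 (e z') 1) (e {m} * e z)) = _
    rw [e_mul, ih, ih, symmDiff_assoc]
    generalize z ∆ z' = u
    by_cases h : m ∈ u
    · have h1 : {m} ∆ u = u.erase m := by
        ext x
        simp only [mem_symmDiff, mem_singleton, mem_erase]
        by_cases hx : x = m <;> simp [hx, h]
      rw [h1, if_neg fun h' => notMem_range_self (h' h), range_add_one, ← card_erase_add_one h]
      simp only [subset_insert_iff]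
      split_ifs <;> push_cast <;> ring
    · have h1 : ¬ {m} ∆ u ⊆ range m := fun h' =>
        notMem_range_self (h' (by simp [mem_symmDiff, h]))
      rw [if_neg h1, range_add_one]
      simp only [subset_insert_iff_of_notMem h]
      split_ifs <;> push_cast <;> ring

theorem result : ∃ (G : Type) (_ : Group G), ¬ Amenable G ∧
    ∃ T : L G →L[ℂ] L G, Invariant T ∧ ¬ IsReg T := by
  classical
  have hs : HasSum A (∑' m, A m) := (Summable.of_norm_bounded
    (summable_geometric_of_lt_one (by norm_num) (by norm_num)) norm_A).hasSum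
  refine ⟨G, inferInstance, not_amenable, ∑' m, A m, fun s f g h x => ?_, fun h => ?_⟩
  · have h1 : Commute (∑' m, A m) _ := Commute.tsum_left _ (comm_A s)
    have h2 : g = shift (Equiv.mulRight s) f := lp.ext (funext h)
    rw [h2]
    exact congrFun (congrArg Subtype.val (DFunLike.congr_fun h1 f)) x
  · obtain ⟨C, hC⟩ := dom _ h
    obtain ⟨N, hN⟩ := pow_unbounded_of_one_lt C (show (1 : ℝ) < 6 / 5 by norm_num)
    have hi : Function.Injective e := fun a b h => congrArg Prod.snd h
    have h1 := hC ((range N).powerset.map ⟨e, hi⟩)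
    have h2 : ∀ z ∈ (range N).powerset, ∀ z' ∈ (range N).powerset,
        (3 / 5 : ℝ) ^ N ≤ ‖(∑' m, A m) (lp.single 2 (e z') 1) (e z)‖ := fun z hz z' hz' => by
      have h3 := ((lp.evalCLM ℂ (fun _ : G => ℂ) 2 (e z)).comp
        (ContinuousLinearMap.apply ℂ _ (lp.single 2 (e z') 1))).hasSum hs
      change HasSum (fun m => A m (lp.single 2 (e z') 1) (e z))
        ((∑' m, A m) (lp.single 2 (e z') 1) (e z)) at h3
      simp only [ker_A] at h3
      have h4 := hasSum_re (h3.div_const (I ^ (z ∆ z').card))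
      simp only [mul_div_cancel_right₀ _ (pow_ne_zero _ I_ne_zero), ofReal_re] at h4
      have h5 := le_hasSum h4 N fun j _ => by positivity
      rw [if_pos (symmDiff_subset_union.trans
        (union_subset (mem_powerset.1 hz) (mem_powerset.1 hz')))] at h5
      refine h5.trans ((re_le_norm _).trans_eq ?_)
      simp
    rw [sum_map, card_map, card_powerset, card_range] at h1
    simp only [sum_map] at h1
    have h3 := (sum_le_sum fun z hz => sum_le_sum (h2 z hz)).trans h1
    simp only [sum_const, card_powerset, card_range, nsmul_eq_mul, Nat.cast_pow,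
      Nat.cast_ofNat] at h3
    rw [← mul_pow, mul_comm] at h3
    have := le_of_mul_le_mul_right h3 (by positivity)
    norm_num at this
    linarith

end Pool.Agent.Results.MP_b39683_an.Regular
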